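import Pool.Agent.N843.CK.Stm
import Pool.Agent.R426.QK.Asy

/-!
# Project CK (helper843), part CK-ASY: the final asymptotics in the class `1` modulo `8`
(port of the last part of `Pool/Agent/R426/QK/Asy.lean`; written by helper594)
-/

set_option autoImplicit false

open scoped Classical
open Finset Filter

namespace Pool.Agent.N594.CK

open Pool.Agent.R426
open Pool.Agent.R426.QK Pool.Agent.R426.QK.Asy
open Pool.Agent.N843.CK
open Pool.Agent.N848.AW (gg hh r8)
open Pool.Agent.Y698 (RR)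
open Pool.Agent.Y703.CX (jj XX eL zz kk eL_tendsto logX_eq rpow_eL HH NN ev_eL one_le_exp
  HH_ge HH_le HH_pos kk_ge kk_le X_pos one_add_log lin_le zz_ge zz_pos)

theorem sum_split (z : ℕ) (S : Finset RR) (f : RR → ZMod 2) :
    ∑ u ∈ sm z S, f u + ∑ π ∈ la z S, f π = ∑ π ∈ S, f π := by
  unfold sm la
  exact Finset.sum_filter_add_sum_filter_not _ _ _

theorem nd1_iff (z : ℕ) (S : Finset RR) :
    Nd1 (sm z S) (la z S) ↔ C1 S ∧ Nd (sm z S) (la z S) := by
  unfold Nd1 C1
  rw [sum_split, sum_split, and_assoc]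

/-- the sets outside the regular part -/
theorem out_sub1 (X z H k V : ℕ) :
    S1 X \ ((Rg X z H k V).filter fun S => Nd1 (sm z S) (la z S)) ⊆
      (((((SS X).filter fun S => k < S.card) ∪
      ((SS X).filter fun S => S.card ≤ k ∧
        X < (∏ π ∈ sm z S, nrm π) * ∏ π ∈ la z S, XX H (bl H π))) ∪
      ((SS X).filter fun S => ¬ Set.InjOn (bl H) (la z S : Set RR))) ∪
      ((SS X).filter fun S => S.card ≤ k ∧ (lt3 z S).card < 4 * (sm z S).card + V)) ∪
      ((SS X).filter fun S => S.card ≤ k ∧ ¬ Nd (sm z S) (la z S)) := by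
  intro S hS
  rw [Finset.mem_sdiff, Finset.mem_filter] at hS
  obtain ⟨h1, h2⟩ := hS
  have h1' : S ∈ SS X ∧ C1 S := by
    unfold S1 at h1
    exact Finset.mem_filter.1 h1
  apply out_sub X z H k V
  rw [Finset.mem_sdiff, Finset.mem_filter]
  refine ⟨h1'.1, fun h3 => h2 ⟨h3.1, ?_⟩⟩
  rw [nd1_iff]
  exact ⟨h1'.2, h3.2⟩

theorem t_ASY1 : S_ASY1 := by
  intro hR h1 h3 h4 h5 hK hC hB hF hLo hc2
  obtain ⟨C, hC1, hkey⟩ := hK hR h1 h3 h5
  obtain ⟨D, hD⟩ := hC
  obtain ⟨c, X₀, hc, hlow⟩ := hLo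
  unfold S_DQ1
  rw [Metric.tendsto_nhds]
  intro ε hε
  have hc0 : (0 : ℝ) < c := hc
  obtain ⟨hc2t, hc2p, hc21, _, _⟩ := hc2
  -- the number of all the sets is at most `D X`
  have hD1 := hD.one
  set δ₀ : ℝ := c * ε / (4 * D) with hδ₀
  have hδ₀p : 0 < δ₀ := by positivity
  obtain ⟨V, hV⟩ := h4 δ₀ hδ₀p
  have s1 := sml_many hD
  have s2 := sml_cut hD
  have s3 := sml_coll hD
  have s4 := sml_eps (hF V)
  have s5 := sml_eps hB
  have s6 := sml_main hC1
  have s := sml_add (sml_add (sml_add (sml_add (sml_add s1 s2) s3) s4) s5) s6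
  have hδ : (0 : ℝ) < c * ε / 4 := by positivity
  filter_upwards [s (c * ε / 4) hδ, ev_eL 1, eventually_ge_atTop X₀] with X hX hl hX0
  rw [neg_zero, zero_mul, Real.exp_zero, mul_one] at hX
  have hl0 : 0 < eL X := by linarith
  have hlo := hlow X hX0
  have hXp := X_pos hl0
  have hXp' : (0 : ℝ) < X := by exact_mod_cast hXp
  have hSpos : (0 : ℝ) < ((S1 X).card : ℝ) := by
    refine lt_of_lt_of_le ?_ hlo
    positivity
  have hN : (HH X : ℝ) * Real.log X < NN X := by
    unfold NN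
    push_cast
    exact Nat.lt_floor_add_one _
  have hmain := hkey δ₀ V hδ₀p hV X (zz X) (HH X) (kk X) (NN X) (kap C X) hXp (HH_pos hl0)
    (zz_pos hl)
    (kap_nonneg hC1 X) (kap_pow hC1 hl) hN
  set T := (Rg X (zz X) (HH X) (kk X) V).filter fun S => Nd1 (sm (zz X) S) (la (zz X) S) with hT
  have hTG : (Rg X (zz X) (HH X) (kk X) V).filter
      (fun S => Nd1 (sm (zz X) S) (la (zz X) S) ∧ QK.Gd S) = T.filter QK.Gd := by
    rw [hT, filter_filter]
  rw [hTG] at hmain
  have hTS : T ⊆ S1 X := by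
    intro S hS
    rw [hT, mem_filter, nd1_iff] at hS
    unfold S1
    rw [mem_filter]
    refine ⟨?_, hS.2.1⟩
    have := hS.1
    unfold Rg at this
    exact (mem_filter.1 this).1
  have hRS : ((Rg X (zz X) (HH X) (kk X) V).card : ℝ) ≤ D * X := by
    refine le_trans ?_ (hD.all X hXp)
    exact_mod_cast card_le_card (filter_subset _ _)
  have hcmp := cmp QK.Gd T (S1 X) hTS c2 hc2p.le hc21.le
  have hout : ((S1 X \ T).card : ℝ) ≤
      ((((SS X).filter fun S => kk X < S.card).card : ℝ) +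
      (((SS X).filter fun S => S.card ≤ kk X ∧
        X < (∏ π ∈ sm (zz X) S, nrm π) * ∏ π ∈ la (zz X) S, XX (HH X) (bl (HH X) π)).card : ℝ) +
      (((SS X).filter fun S => ¬ Set.InjOn (bl (HH X)) (la (zz X) S : Set RR)).card : ℝ) +
      (((SS X).filter fun S => S.card ≤ kk X ∧
        (lt3 (zz X) S).card < 4 * (sm (zz X) S).card + V).card : ℝ)) +
      (((SS X).filter fun S => S.card ≤ kk X ∧ ¬ Nd (sm (zz X) S) (la (zz X) S)).card : ℝ) := by
    have g := card_le_card (out_sub1 X (zz X) (HH X) (kk X) V)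
    rw [← hT] at g
    have g2 := (g.trans (card_union_le _ _)).trans (Nat.add_le_add_right ((card_union_le _ _).trans
      (Nat.add_le_add_right ((card_union_le _ _).trans
      (Nat.add_le_add_right (card_union_le _ _) _)) _)) _)
    exact_mod_cast g2
  have hε1 : δ₀ * ((Rg X (zz X) (HH X) (kk X) V).card : ℝ) ≤ c * ε / 4 * X := by
    calc δ₀ * ((Rg X (zz X) (HH X) (kk X) V).card : ℝ) ≤ δ₀ * (D * X) :=
          mul_le_mul_of_nonneg_left hRS hδ₀p.le
      _ = c * ε / 4 * X := by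
          rw [hδ₀]
          have : D ≠ 0 := by linarith
          field_simp
  have htot : |(((S1 X).filter QK.Gd).card : ℝ) - c2 * ((S1 X).card : ℝ)| ≤
      c * ε / 4 * X + c * ε / 4 * X := by
    linarith
  rw [Real.dist_eq]
  have e3 : (((S1 X).filter QK.Gd).card : ℝ) / ((S1 X).card : ℝ) - c2 =
      ((((S1 X).filter QK.Gd).card : ℝ) - c2 * ((S1 X).card : ℝ)) /
        ((S1 X).card : ℝ) := by
    field_simp
  rw [e3, abs_div, abs_of_pos hSpos, div_lt_iff₀ hSpos]
  refine lt_of_le_of_lt htot ?_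
  have g2 : c * ε / 4 * X ≤ ε / 4 * ((S1 X).card : ℝ) := by
    calc c * ε / 4 * X = ε / 4 * (c * X) := by ring
      _ ≤ _ := mul_le_mul_of_nonneg_left hlo (by linarith)
  have g4 : 0 < ε * ((S1 X).card : ℝ) := by positivity
  linarith

end Pool.Agent.N594.CK
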